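import Mathlib
import Pool.Agent.Lib.MP_aba96a_nt.CramerB

/-!
# Gilbreath's conjecture for Cramér's random primes
-/

set_option autoImplicit false

open MeasureTheory Filter ProbabilityTheory Pool.Agent.Gil

namespace Pool.Agent.Results.MP_aba96a_nt.CramerModel

/-- Row `t` of the table of iterated absolute differences of `X` (row `0` is `X`). -/
def diffRow (X : ℕ → ℤ) (t : ℕ) : ℕ → ℤ :=
  (fun f : ℕ → ℤ => fun n : ℕ => |f (n + 1) - f n|)^[t] X

/-- The random primes: `2`, and the odd numbers `n ≥ 3` for which the event `A n` occurs. -/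
def randomPrimes {Ω : Type*} (A : ℕ → Set Ω) (ω : Ω) : Set ℕ :=
  {n | n = 2 ∨ (3 ≤ n ∧ Odd n ∧ ω ∈ A n)}

/-- Let `W ≥ 1` and `lam > 0`, and let `A n` be independent events whose probability is, for all `n`
beyond some `n₀`, `min 1 (lam / log n)` if `n` is coprime to `W` and `0` otherwise (arbitrary for
`n ≤ n₀`).  Then almost surely there are infinitely many random primes and, for all large `k`, in
the table of iterated absolute differences of their increasing enumeration the first entry of row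
`k` is `1`, and every entry with index `j ≥ 1` of every row `t ≥ C (log k) ^ 3` of the triangle
`j + t ≤ k` is `0` or `2`.  The constant `C` depends only on `W` and `lam`.  The case `W = 1`,
`lam = 2` is Cramér's model of the odd primes. -/
theorem result.{u} (W : ℕ) (lam : ℝ) (hW : 0 < W) (hlam : 0 < lam) : ∃ C : ℝ, 0 < C ∧
    ∀ (Ω : Type u) (_ : MeasurableSpace Ω) (μ : Measure Ω) (_ : IsProbabilityMeasure μ)
      (A : ℕ → Set Ω) (n₀ : ℕ), (∀ n, MeasurableSet (A n)) → iIndepSet A μ →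
      (∀ n, n₀ < n →
        μ (A n) = if n.Coprime W then ENNReal.ofReal (min 1 (lam / Real.log n)) else 0) →
      ∀ᵐ ω ∂μ, (randomPrimes A ω).Infinite ∧
        ∀ᶠ k : ℕ in atTop,
          diffRow (fun n => ((Nat.nth (fun m => m ∈ randomPrimes A ω) n : ℕ) : ℤ)) k 0 = 1 ∧
          ∀ t j : ℕ, C * Real.log k ^ 3 ≤ t → 1 ≤ j → j + t ≤ k →
            diffRow (fun n => ((Nat.nth (fun m => m ∈ randomPrimes A ω) n : ℕ) : ℤ)) t j = 0 ∨
            diffRow (fun n => ((Nat.nth (fun m => m ∈ randomPrimes A ω) n : ℕ) : ℤ)) t j = 2 := by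
  set κ : ℝ := (1 / 2) ^ (2 * W + 3) with hκ
  have hκ0 : 0 < κ := by rw [hκ]; positivity
  set δ : ℝ := κ / (κ + (2 * W : ℕ) + 3) with hδ
  have hδ0 : 0 < δ := by rw [hδ]; positivity
  set C₀ : ℝ := 2 * W * (4 / lam + 1) + 1 with hC₀
  have hC₀0 : 0 < C₀ := by rw [hC₀]; positivity
  set C : ℝ := (6 / δ + 1) * (5 * C₀ + 3) + 1 with hC
  have hC0 : 0 < C := by rw [hC]; positivity
  refine ⟨C, hC0, ?_⟩
  intro Ω _ μ _ A n₀ hA hind hp
  have hM : Model μ A W lam n₀ := hp
  have hgapae := model_gap hA hind hW hlam hM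
  have hInfae : ∀ᵐ ω ∂μ, ω ∈ Inf A := hgapae.mono fun ω h => inf_of_gap h
  have hInf : μ (Inf A)ᶜ = 0 := hInfae
  obtain ⟨n₁, hn₁⟩ := model_spread hA hind hInf hW hlam hM
  set l : ℕ → ℕ := fun k => ⌈6 * Real.log k / δ⌉₊ with hl
  set M : ℕ → ℕ := fun k => ⌈5 * C₀ * Real.log k ^ 2⌉₊ + 1 with hMdef
  have hθ : ∀ n, Spread μ (CX A) n (cth δ n₁ n) := by
    intro n
    unfold cth
    split_ifs with h
    · exact spread_one μ _ n
    · exact hn₁ n (by omega)
  have hcast : Tendsto (fun k : ℕ => (k : ℝ)) atTop atTop := tendsto_natCast_atTop_atTop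
  have hl1 : ∀ᶠ k : ℕ in atTop, (l k : ℝ) ≤ (6 / δ + 1) * Real.log k := by
    filter_upwards [log_nat_tendsto.eventually_ge_atTop 1] with k hk
    have h1 : (l k : ℝ) ≤ 6 * Real.log k / δ + 1 := (Nat.ceil_lt_add_one (by positivity)).le
    calc (l k : ℝ) ≤ 6 * Real.log k / δ + Real.log k := by linarith
      _ = (6 / δ + 1) * Real.log k := by ring
  have hM1 : ∀ᶠ k : ℕ in atTop, (M k : ℝ) ≤ (5 * C₀ + 2) * Real.log k ^ 2 := by
    filter_upwards [log_nat_tendsto.eventually_ge_atTop 1] with k hk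
    have h1 : (⌈5 * C₀ * Real.log k ^ 2⌉₊ : ℝ) ≤ 5 * C₀ * Real.log k ^ 2 + 1 :=
      (Nat.ceil_lt_add_one (by positivity)).le
    simp only [hMdef]
    push_cast
    nlinarith
  have hlM : ∀ᶠ k : ℕ in atTop, (2 * l k + 1) * M k ≤ k := by
    have h1 := (isLittleO_log_rpow_atTop (show (0 : ℝ) < 1 / 4 by norm_num)).bound
      (show (0 : ℝ) < 1 by norm_num)
    have h2 : ∀ᶠ x : ℝ in atTop, (2 * (6 / δ + 1) + 1) * (5 * C₀ + 2) ≤ x ^ (1 / 4 : ℝ) :=
      (tendsto_rpow_atTop (by norm_num)).eventually_ge_atTop _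
    filter_upwards [hl1, hM1, hcast.eventually h1, hcast.eventually h2,
      log_nat_tendsto.eventually_ge_atTop 1, hcast.eventually_ge_atTop 1] with k h3 h4 h5 h6 h7 h8
    rw [Real.norm_eq_abs, Real.norm_eq_abs, abs_of_nonneg (show 0 ≤ Real.log k by linarith),
      abs_of_nonneg (show 0 ≤ (k : ℝ) ^ (1 / 4 : ℝ) by positivity), one_mul] at h5
    have h9 : (((2 * l k + 1) * M k : ℕ) : ℝ) ≤ k := by
      push_cast
      calc (2 * (l k : ℝ) + 1) * (M k : ℝ)
          ≤ (2 * ((6 / δ + 1) * Real.log k) + Real.log k) * ((5 * C₀ + 2) * Real.log k ^ 2) := by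
            gcongr
        _ = ((2 * (6 / δ + 1) + 1) * (5 * C₀ + 2)) * Real.log k ^ 3 := by ring
        _ ≤ (k : ℝ) ^ (1 / 4 : ℝ) * ((k : ℝ) ^ (1 / 4 : ℝ)) ^ 3 := by gcongr
        _ = k := by
            rw [← Real.rpow_natCast, ← Real.rpow_mul (by linarith), ← Real.rpow_add (by linarith)]
            norm_num
    exact_mod_cast h9
  have hMk : ∀ᶠ k : ℕ in atTop, 2 ≤ M k ∧ M k ≤ k := by
    filter_upwards [hlM, log_nat_tendsto.eventually_ge_atTop 1] with k h1 h2
    constructor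
    · have : 0 < ⌈5 * C₀ * Real.log k ^ 2⌉₊ := Nat.ceil_pos.2 (by positivity)
      simp only [hMdef]; omega
    · refine le_trans ?_ h1
      calc M k = 1 * M k := (one_mul _).symm
        _ ≤ (2 * l k + 1) * M k := Nat.mul_le_mul_right _ (by omega)
  -- gaps
  have hgrow : ∀ᵐ ω ∂μ, ∀ᶠ n : ℕ in atTop,
      ((|CX A (n + 1) ω - CX A n ω| : ℤ) : ℝ) ≤ 9 * C₀ * Real.log n ^ 2 := by
    filter_upwards [hgapae, hInfae] with ω h1 h2
    have hinf : (setOf fun m => m ∈ randP A ω).Infinite := h2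
    have hstep := nth_step h1
    have hgr := growth (x := Nat.nth (fun m => m ∈ randP A ω)) (Nat.nth_strictMono hinf)
      (g := fun x => ((2 * W * ⌈4 * Real.log x ^ 2 / lam⌉₊ + 1 : ℕ) : ℝ)) hC₀0 (by
        filter_upwards [log_nat_tendsto.eventually_ge_atTop 1] with y hy
        have h3 : (⌈4 * Real.log y ^ 2 / lam⌉₊ : ℝ) ≤ 4 * Real.log y ^ 2 / lam + 1 :=
          (Nat.ceil_lt_add_one (by positivity)).le
        have h4 : (1 : ℝ) ≤ Real.log y ^ 2 := one_le_pow₀ hy
        push_cast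
        calc 2 * (W : ℝ) * (⌈4 * Real.log y ^ 2 / lam⌉₊ : ℝ) + 1
            ≤ 2 * (W : ℝ) * (4 * Real.log y ^ 2 / lam + Real.log y ^ 2) + Real.log y ^ 2 := by
              gcongr
              exact h3.trans (by linarith)
          _ = C₀ * Real.log y ^ 2 := by rw [hC₀]; ring)
      (by
        filter_upwards [hstep] with n hn
        exact_mod_cast hn)
    filter_upwards [hgr] with n hn
    have h5 : Nat.nth (fun m => m ∈ randP A ω) n < Nat.nth (fun m => m ∈ randP A ω) (n + 1) :=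
      Nat.nth_strictMono hinf (by omega)
    rw [CX_of_mem h2, CX_of_mem h2, abs_of_nonneg (by omega)]
    push_cast
    exact hn
  have hg : ∀ᵐ ω ∂μ, ∀ᶠ k : ℕ in atTop, ∀ j < k,
      |CX A (j + 1) ω - CX A j ω| ≤ 2 * (M k : ℤ) := by
    filter_upwards [hgrow] with ω hω
    obtain ⟨J₀, hJ₀⟩ := eventually_atTop.1 hω
    set J := max J₀ 1 with hJ
    set B : ℝ := ∑ j ∈ Finset.range J, ((|CX A (j + 1) ω - CX A j ω| : ℤ) : ℝ) with hB
    filter_upwards [log_nat_tendsto.eventually_ge_atTop (1 + |B| / C₀),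
      hcast.eventually_ge_atTop 1] with k h1 h2 j hj
    have hBC : 0 ≤ |B| / C₀ := by positivity
    have hlk : 1 ≤ Real.log k := by linarith
    have hMr : 10 * C₀ * Real.log k ^ 2 ≤ 2 * (M k : ℝ) := by
      have h4 : 5 * C₀ * Real.log k ^ 2 ≤ ⌈5 * C₀ * Real.log k ^ 2⌉₊ := Nat.le_ceil _
      simp only [hMdef]; push_cast; linarith
    have h6 : ((|CX A (j + 1) ω - CX A j ω| : ℤ) : ℝ) ≤ 10 * C₀ * Real.log k ^ 2 := by
      rcases Nat.lt_or_ge j J with h7 | h7
      · have h8 : ((|CX A (j + 1) ω - CX A j ω| : ℤ) : ℝ) ≤ B :=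
          Finset.single_le_sum (f := fun j => ((|CX A (j + 1) ω - CX A j ω| : ℤ) : ℝ))
            (fun i _ => by exact_mod_cast abs_nonneg _) (Finset.mem_range.2 h7)
        have h9 : |B| ≤ C₀ * Real.log k := by
          have : |B| / C₀ ≤ Real.log k := by linarith
          rw [div_le_iff₀ hC₀0] at this
          linarith
        have h10 : C₀ * Real.log k ≤ 10 * C₀ * Real.log k ^ 2 := by
          have h14 : 0 < C₀ * Real.log k := by positivity
          have h15 : C₀ * Real.log k * 1 ≤ C₀ * Real.log k * Real.log k := by gcongr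
          nlinarith
        linarith [le_abs_self B]
      · refine (hJ₀ j (by omega)).trans ?_
        have hj1 : (1 : ℝ) ≤ j := by exact_mod_cast (show 1 ≤ j by omega)
        have hjk : (j : ℝ) ≤ k := by exact_mod_cast hj.le
        have h11 : Real.log j ≤ Real.log k := Real.log_le_log (by linarith) hjk
        have h12 : 0 ≤ Real.log j := Real.log_nonneg hj1
        have h16 : Real.log j ^ 2 ≤ Real.log k ^ 2 := pow_le_pow_left₀ h12 h11 2
        have h17 : (0 : ℝ) ≤ Real.log k ^ 2 := by positivity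
        nlinarith
    have h13 := h6.trans hMr
    exact_mod_cast h13
  have hE := engine μ (X := CX A) (CX_meas hA) (fun ω => by rw [CX_zero]; exact even_two)
    (CX_odd A) (cth δ n₁) hθ l M (const_hprod hδ0 n₁) hMk hg
  have hrows : ∀ᶠ k : ℕ in atTop, ((1 + l k * (M k - 1) : ℕ) : ℝ) ≤ C * Real.log k ^ 3 := by
    filter_upwards [hl1, hM1, log_nat_tendsto.eventually_ge_atTop 1] with k h3 h4 h5
    have h6 : ((M k - 1 : ℕ) : ℝ) ≤ (M k : ℝ) := by exact_mod_cast Nat.sub_le _ _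
    have h7 : (1 : ℝ) ≤ Real.log k ^ 3 := one_le_pow₀ h5
    push_cast
    calc (1 : ℝ) + (l k : ℝ) * ((M k - 1 : ℕ) : ℝ)
        ≤ Real.log k ^ 3 + ((6 / δ + 1) * Real.log k) * ((5 * C₀ + 2) * Real.log k ^ 2) := by
          gcongr
          exact h6.trans h4
      _ = ((6 / δ + 1) * (5 * C₀ + 2) + 1) * Real.log k ^ 3 := by ring
      _ ≤ C * Real.log k ^ 3 := by
          rw [hC]
          gcongr
          norm_num
  filter_upwards [hE, hInfae] with ω hω hω2
  refine ⟨hω2, ?_⟩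
  have heq : (fun n => ((Nat.nth (fun m => m ∈ randomPrimes A ω) n : ℕ) : ℤ)) =
      fun n => CX A n ω := by
    funext n
    rw [CX_of_mem hω2]
    rfl
  rw [heq]
  filter_upwards [hω, hlM, hrows] with k h1 h2 h3
  refine ⟨h1.2 h2, fun t j ht hj hjk => h1.1 t j ?_ hj hjk⟩
  exact_mod_cast h3.trans ht

end Pool.Agent.Results.MP_aba96a_nt.CramerModel
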