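import Mathlib
import Pool.Agent.Lib.MP_aba96a_nt.PrimesBase
import Pool.Agent.Lib.MP_aba96a_nt.Blocks

/-!
# A failure of Gilbreath's conjecture forces long two-valued blocks in almost all rows
-/

set_option autoImplicit false

open Filter Pool.Agent.Gil

namespace Pool.Agent.Results.MP_aba96a_nt.LongBlocks

/-- Row `t` of the table of iterated absolute differences of the primes (row `0` is the sequence
of the primes `2, 3, 5, ...`, indexed from `0`). -/
noncomputable def primeRow (t : ℕ) : ℕ → ℤ :=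
  (fun f : ℕ → ℤ => fun n : ℕ => |f (n + 1) - f n|)^[t]
    (fun n : ℕ => ((Nat.nth Nat.Prime n : ℕ) : ℤ))

/-- Row `t` of the table of the primes contains `L + 1` consecutive entries, with indices `≥ 1` and
depending only on the primes with index `≤ k`, each of which is `0` or `V`, for one even `V ≥ 4`. -/
def HasBlock (k t L : ℕ) : Prop :=
  ∃ j V : ℕ, 1 ≤ j ∧ 4 ≤ V ∧ Even V ∧ j + L + t ≤ k ∧
    ∀ i ≤ L, primeRow t (j + i) = 0 ∨ primeRow t (j + i) = (V : ℤ)

open Classical in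
/-- There is an absolute constant `δ > 0` such that, for all large `k`: if the first entry of row
`k` is not `1` (that is, if Gilbreath's conjecture fails at `k`), then for all but at most
`k ^ (1 - δ)` of the rows `t = 1, ..., k`, row `t` has a block of more than `k ^ δ` consecutive
entries which are all `0` or `V`, for one even `V ≥ 4`, within the triangle of size `k`. -/
theorem result : ∃ δ : ℝ, 0 < δ ∧ ∀ᶠ k : ℕ in atTop, primeRow k 0 ≠ 1 →
    (((Finset.Icc 1 k).filter (fun t => ¬ HasBlock k t ⌈(k : ℝ) ^ δ⌉₊)).card : ℝ) ≤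
      (k : ℝ) ^ (1 - δ) := by
  obtain ⟨δ, hδ, hδ1, hgap0⟩ := prime_gap
  have hgap := b_gap hgap0
  set η := δ / 3 with hη'
  have hη : 0 < η := by rw [hη']; linarith
  have hη3 : 3 * η < 1 := by rw [hη']; linarith
  refine ⟨η, hη, ?_⟩
  set b : ℕ → ℤ := fun n => ((Nat.nth Nat.Prime n : ℕ) : ℤ) with hb
  have hcast : Tendsto (fun k : ℕ => (k : ℝ)) atTop atTop := tendsto_natCast_atTop_atTop
  obtain ⟨J, hJ⟩ := eventually_atTop.1 hgap
  set C : ℝ := ∑ j ∈ Finset.range J, |((b (j + 1) - b j : ℤ) : ℝ)| with hC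
  have hCk : ∀ᶠ k : ℕ in atTop, C ≤ (k : ℝ) ^ (1 - 3 * η) :=
    ((tendsto_rpow_atTop (by linarith)).comp hcast).eventually_ge_atTop C
  have hbig : ∀ᶠ k : ℕ in atTop, (18 : ℝ) ≤ (k : ℝ) ^ η :=
    ((tendsto_rpow_atTop hη).comp hcast).eventually_ge_atTop 18
  have hbig2 : ∀ᶠ k : ℕ in atTop, (2 : ℝ) ≤ (k : ℝ) ^ (1 - η) :=
    ((tendsto_rpow_atTop (by linarith)).comp hcast).eventually_ge_atTop 2
  filter_upwards [hCk, hbig, hbig2, hcast.eventually_ge_atTop 1] with k h1 h2 h2' h3 hfail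
  set l := ⌈(k : ℝ) ^ η⌉₊ with hl
  set M := ⌈(k : ℝ) ^ (1 - 3 * η)⌉₊ + 1 with hM
  have hx : (1 : ℝ) ≤ (k : ℝ) ^ (1 - 3 * η) := Real.one_le_rpow h3 (by linarith)
  have hM2 : 2 ≤ M := by
    have : 0 < ⌈(k : ℝ) ^ (1 - 3 * η)⌉₊ := Nat.ceil_pos.2 (by positivity)
    omega
  have hl1 : (l : ℝ) ≤ (k : ℝ) ^ η + 1 := (Nat.ceil_lt_add_one (by positivity)).le
  have hM1 : (M : ℝ) ≤ (k : ℝ) ^ (1 - 3 * η) + 2 := by
    have := (Nat.ceil_lt_add_one (show 0 ≤ (k : ℝ) ^ (1 - 3 * η) by positivity)).le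
    rw [hM]; push_cast; linarith
  have hlk : l < k := by
    have e1 : (k : ℝ) ^ η * (k : ℝ) ^ (1 - η) = k := by
      rw [← Real.rpow_add (by linarith)]; ring_nf; exact Real.rpow_one _
    have : (l : ℝ) < k := by nlinarith
    exact_mod_cast this
  have hg : ∀ j, j < k → |b (j + 1) - b j| ≤ 2 * (M : ℤ) := by
    intro j hj
    have h4 : |((b (j + 1) - b j : ℤ) : ℝ)| ≤ (k : ℝ) ^ (1 - 3 * η) := by
      rcases Nat.lt_or_ge j J with h4 | h4
      · refine le_trans ?_ h1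
        exact Finset.single_le_sum (f := fun j => |((b (j + 1) - b j : ℤ) : ℝ)|)
          (fun i _ => abs_nonneg _) (Finset.mem_range.2 h4)
      · refine (hJ j h4).trans ?_
        exact Real.rpow_le_rpow (by positivity) (by exact_mod_cast hj.le) (by linarith)
    have h6 : ((|b (j + 1) - b j| : ℤ) : ℝ) ≤ ((2 * (M : ℤ) : ℤ) : ℝ) := by
      have h7 : (k : ℝ) ^ (1 - 3 * η) ≤ ⌈(k : ℝ) ^ (1 - 3 * η)⌉₊ := Nat.le_ceil _
      rw [hM]
      push_cast at h4 ⊢
      linarith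
    exact_mod_cast h6
  have hcount := block_count (X := b) b_even b_odd (k := k) (l := l) (M := M) hM2 hg hlk hfail
  have hsub : (Finset.Icc 1 k).filter (fun t => ¬ HasBlock k t l) ⊆
      (Finset.Icc 1 k).filter (fun t => ¬ Blk b k l M t) := by
    intro t ht
    rw [Finset.mem_filter] at ht ⊢
    refine ⟨ht.1, fun hB => ht.2 ?_⟩
    obtain ⟨j, V, h5, h6, -, h7, h8, h9⟩ := hB
    exact ⟨j, V, h5, h6, h7, h8, h9⟩
  have h10 := (Finset.card_le_card hsub).trans hcount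
  calc (((Finset.Icc 1 k).filter (fun t => ¬ HasBlock k t l)).card : ℝ)
      ≤ ((2 * (l + 1) * M : ℕ) : ℝ) := by exact_mod_cast h10
    _ = 2 * ((l : ℝ) + 1) * M := by push_cast; ring
    _ ≤ 2 * (((k : ℝ) ^ η + 1) + 1) * ((k : ℝ) ^ (1 - 3 * η) + 2) := by gcongr
    _ ≤ 2 * (3 * (k : ℝ) ^ η) * (3 * (k : ℝ) ^ (1 - 3 * η)) := by gcongr <;> linarith
    _ = 18 * ((k : ℝ) ^ η * (k : ℝ) ^ (1 - 3 * η)) := by ring
    _ = 18 * (k : ℝ) ^ (1 - 2 * η) := by
        rw [← Real.rpow_add (by linarith)]; ring_nf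
    _ ≤ (k : ℝ) ^ η * (k : ℝ) ^ (1 - 2 * η) := by gcongr
    _ = (k : ℝ) ^ (1 - η) := by
        rw [← Real.rpow_add (by linarith)]; ring_nf

end Pool.Agent.Results.MP_aba96a_nt.LongBlocks
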