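import Mathlib
import Pool.Agent.Lib.MP_aba96a_nt.PrimesBase

/-!
# Gilbreath's conjecture for randomly perturbed primes
-/

set_option autoImplicit false

open MeasureTheory Filter ProbabilityTheory Pool.Agent.Gil

namespace Pool.Agent.Results.MP_aba96a_nt.PerturbedPrimes

/-- Row `t` of the table of iterated absolute differences of `X` (row `0` is `X`). -/
def diffRow (X : ℕ → ℤ) (t : ℕ) : ℕ → ℤ :=
  (fun f : ℕ → ℤ => fun n : ℕ => |f (n + 1) - f n|)^[t] X

/-- For all large `k`, the table of iterated absolute differences of `X` satisfies: the first entry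
of row `k` is `1`, and every entry with index `j ≥ 1` of every row `t ≥ k ^ (1 - η)` of the triangle
`j + t ≤ k` (which only uses `X 1, ..., X k`) is `0` or `2`. -/
def GilbreathLate (X : ℕ → ℤ) (η : ℝ) : Prop :=
  ∀ᶠ k : ℕ in atTop, diffRow X k 0 = 1 ∧
    ∀ t j : ℕ, (k : ℝ) ^ (1 - η) ≤ t → 1 ≤ j → j + t ≤ k → diffRow X t j = 0 ∨ diffRow X t j = 2

open Classical in
/-- There is an absolute constant `η > 0` such that, with `p n` the `n`-th prime (`p 0 = 2`): if
`A n` are independent events such that, for all large `m`, the sum of `min (P(A n)) (1 - P(A n))`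
over `m ≤ n < m + m ^ η` is at least `1`, then almost surely `GilbreathLate` holds for the sequence
obtained from the primes by replacing `p n` by `p n + 2` on `A n` (`n ≥ 1`, that is for odd
primes). -/
theorem result.{u} : ∃ η : ℝ, 0 < η ∧
    ∀ (Ω : Type u) (_ : MeasurableSpace Ω) (μ : Measure Ω) (_ : IsProbabilityMeasure μ)
      (A : ℕ → Set Ω), (∀ n, MeasurableSet (A n)) → iIndepSet A μ →
      (∀ᶠ m : ℕ in atTop, (1 : ℝ) ≤ ∑ n ∈ Finset.Ico m (m + ⌊(m : ℝ) ^ η⌋₊),
        min (μ.real (A n)) (1 - μ.real (A n))) →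
      ∀ᵐ ω ∂μ, GilbreathLate (fun n : ℕ => ((Nat.nth Nat.Prime n : ℕ) : ℤ) +
            if 1 ≤ n ∧ ω ∈ A n then 2 else 0) η := by
  obtain ⟨δ, hδ, hδ1, hgap⟩ := prime_gap
  have hη1 : 0 < δ / 3 := by linarith
  refine ⟨δ / 3 / 2, by linarith, ?_⟩
  · intro Ω _ μ _ A hA hind hwin
    have hwin' : ∀ᶠ m : ℕ in atTop, (1 : ℝ) ≤
        ∑ n ∈ Finset.Ico m (m + ⌊(m : ℝ) ^ (δ / 3)⌋₊), rr μ A n := by
      filter_upwards [hwin, eventually_ge_atTop 1] with m hm hm1
      refine hm.trans (Finset.sum_le_sum_of_subset_of_nonneg ?_ (fun n _ _ => rr_nonneg μ A n))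
      refine Finset.Ico_subset_Ico le_rfl ?_
      have : ⌊(m : ℝ) ^ (δ / 3 / 2)⌋₊ ≤ ⌊(m : ℝ) ^ (δ / 3)⌋₊ := by
        apply Nat.floor_le_floor
        exact Real.rpow_le_rpow_of_exponent_le (by exact_mod_cast hm1) (by linarith)
      omega
    have h := perturbed (μ := μ) (b := fun n => ((Nat.nth Nat.Prime n : ℕ) : ℤ)) b_even b_odd
      (η := δ / 3) hη1 (by linarith) (b_gap hgap) hA hind hwin'
    exact h

end Pool.Agent.Results.MP_aba96a_nt.PerturbedPrimes
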