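import Mathlib
import Pool.Agent.Lib.MP_aba96a_nt.Const

/-!
# The random analogue of Gilbreath's conjecture, with gaps as large as `c n / log n`
-/

set_option autoImplicit false

open MeasureTheory Filter Pool.Agent.Gil

namespace Pool.Agent.Results.MP_aba96a_nt.RandomGaps

/-- Row `t` of the table of iterated absolute differences of `X` (row `0` is `X`). -/
def diffRow (X : ℕ → ℤ) (t : ℕ) : ℕ → ℤ :=
  (fun f : ℕ → ℤ => fun n : ℕ => |f (n + 1) - f n|)^[t] X

/-- From the index `n₀` on, given the values of `X 0, ..., X (n - 1)`, the variable `X n` lies in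
any given set `S` without two elements at distance `2` with conditional probability at most
`1 - δ`. -/
def NotConcentrated {Ω : Type*} [MeasurableSpace Ω] (μ : Measure Ω) (X : ℕ → Ω → ℤ) (δ : ℝ)
    (n₀ : ℕ) : Prop :=
  ∀ n, n₀ ≤ n → ∀ (a : ℕ → ℤ) (S : Set ℤ), (∀ v ∈ S, v + 2 ∉ S) →
    μ {ω | (∀ i < n, X i ω = a i) ∧ X n ω ∈ S} ≤
      ENNReal.ofReal (1 - δ) * μ {ω | ∀ i < n, X i ω = a i}

/-- For every `δ > 0` there is `c > 0` such that the following holds.  Let `X 0, X 1, ...` be integer
random variables, `X 0` even and `X n` odd for `n ≥ 1`, which are not concentrated in the above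
sense, with `|X (n + 1) - X n| ≤ c * n / log n` for all large `n`, almost surely.  Then almost
surely, for all large `k`, the first entry of row `k` of the table of iterated absolute differences
is `1`, and every entry with index `j ≥ 1` of every row `t ≥ k / 2` of the triangle `j + t ≤ k` is
`0` or `2`. -/
theorem result.{u} : ∀ δ : ℝ, 0 < δ → ∃ c : ℝ, 0 < c ∧
    ∀ (Ω : Type u) (_ : MeasurableSpace Ω) (μ : Measure Ω) (_ : IsProbabilityMeasure μ)
      (X : ℕ → Ω → ℤ) (n₀ : ℕ), (∀ n, Measurable (X n)) → (∀ ω, Even (X 0 ω)) →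
      (∀ ω n, 1 ≤ n → Odd (X n ω)) → NotConcentrated μ X δ n₀ →
      (∀ᵐ ω ∂μ, ∀ᶠ n : ℕ in atTop,
        ((|X (n + 1) ω - X n ω| : ℤ) : ℝ) ≤ c * n / Real.log n) →
      ∀ᵐ ω ∂μ, ∀ᶠ k : ℕ in atTop, diffRow (fun n => X n ω) k 0 = 1 ∧
        ∀ t j : ℕ, k ≤ 2 * t → 1 ≤ j → j + t ≤ k →
          diffRow (fun n => X n ω) t j = 0 ∨ diffRow (fun n => X n ω) t j = 2 := by
  intro δ hδ
  refine ⟨δ / 10, by positivity, ?_⟩
  intro Ω _ μ _ X n₀ hX h0 hodd hS hgap
  set c := δ / 10 with hc
  have hc0 : 0 < c := by rw [hc]; positivity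
  set l : ℕ → ℕ := fun k => ⌈6 * Real.log k / δ⌉₊ with hl
  set M : ℕ → ℕ := fun k => ⌈c * k / (2 * Real.log k)⌉₊ + 1 with hM
  have hθ : ∀ n, Spread μ X n (cth δ n₀ n) := by
    intro n
    unfold cth
    split_ifs with h
    · exact spread_one μ X n
    · exact hS n (by omega)
  have hcast : Tendsto (fun k : ℕ => (k : ℝ)) atTop atTop := tendsto_natCast_atTop_atTop
  -- k / log k is large
  have hkl : ∀ B : ℝ, ∀ᶠ k : ℕ in atTop, B ≤ k / Real.log k := by
    intro B
    have h1 := (Real.isLittleO_log_id_atTop).bound (show (0 : ℝ) < 1 / (|B| + 1) by positivity)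
    filter_upwards [hcast.eventually h1, log_nat_tendsto.eventually_ge_atTop 1,
      hcast.eventually_ge_atTop 1] with k h2 h3 h4
    rw [Real.norm_eq_abs, Real.norm_eq_abs, abs_of_nonneg (show 0 ≤ Real.log k by linarith), id,
      abs_of_nonneg (show (0 : ℝ) ≤ k by linarith)] at h2
    rw [le_div_iff₀ (by linarith)]
    have h5 : (|B| + 1) * Real.log k ≤ k := by
      have := mul_le_mul_of_nonneg_left h2 (show 0 ≤ |B| + 1 by positivity)
      calc (|B| + 1) * Real.log k ≤ (|B| + 1) * (1 / (|B| + 1) * k) := this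
        _ = k := by field_simp
    nlinarith [le_abs_self B]
  have hlM' : ∀ᶠ k : ℕ in atTop, (2 * (l k : ℝ) + 1) * (M k : ℝ) ≤ k := by
    filter_upwards [hkl (120 / δ), log_nat_tendsto.eventually_ge_atTop (10 * δ + 10),
      hcast.eventually_ge_atTop 1] with k h1 h2 h3
    have hlog : 0 < Real.log k := by linarith
    have h4 : (l k : ℝ) ≤ 6 * Real.log k / δ + 1 := (Nat.ceil_lt_add_one (by positivity)).le
    have h5 : (M k : ℝ) ≤ c * k / (2 * Real.log k) + 2 := by
      have := (Nat.ceil_lt_add_one (show 0 ≤ c * k / (2 * Real.log k) by positivity)).le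
      simp only [hM]; push_cast; linarith
    have h6 : 2 * (l k : ℝ) + 1 ≤ 13 * Real.log k / δ := by
      have : 3 ≤ Real.log k / δ := by rw [le_div_iff₀ hδ]; linarith
      calc 2 * (l k : ℝ) + 1 ≤ 12 * (Real.log k / δ) + 3 := by
            have : 6 * Real.log k / δ = 6 * (Real.log k / δ) := by ring
            linarith
        _ ≤ 13 * Real.log k / δ := by
            have : 13 * Real.log k / δ = 13 * (Real.log k / δ) := by ring
            linarith
    have h7 : (M k : ℝ) ≤ (δ / 15) * (k / Real.log k) := by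
      have e1 : c * k / (2 * Real.log k) = (δ / 20) * (k / Real.log k) := by
        rw [hc]; field_simp; norm_num
      have e2 : (2 : ℝ) ≤ (δ / 60) * (k / Real.log k) := by
        have e3 : (δ / 60) * (120 / δ) ≤ (δ / 60) * (k / Real.log k) := by gcongr
        have e4 : (δ / 60) * (120 / δ) = 2 := by field_simp; norm_num
        linarith
      linarith
    calc (2 * (l k : ℝ) + 1) * (M k : ℝ) ≤ (13 * Real.log k / δ) * ((δ / 15) * (k / Real.log k)) := by
          gcongr
      _ = (13 / 15) * k := by field_simp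
      _ ≤ k := by linarith
  have hlM : ∀ᶠ k : ℕ in atTop, (2 * l k + 1) * M k ≤ k := by
    filter_upwards [hlM'] with k hk
    exact_mod_cast hk
  have hMk : ∀ᶠ k : ℕ in atTop, 2 ≤ M k ∧ M k ≤ k := by
    filter_upwards [hlM, log_nat_tendsto.eventually_ge_atTop 1, hcast.eventually_ge_atTop 1]
      with k h1 h2 h3
    constructor
    · have : 0 < ⌈c * k / (2 * Real.log k)⌉₊ := Nat.ceil_pos.2 (by positivity)
      simp only [hM]; omega
    · refine le_trans ?_ h1
      calc M k = 1 * M k := (one_mul _).symm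
        _ ≤ (2 * l k + 1) * M k := Nat.mul_le_mul_right _ (by omega)
  have hg : ∀ᵐ ω ∂μ, ∀ᶠ k : ℕ in atTop, ∀ j < k,
      |X (j + 1) ω - X j ω| ≤ 2 * (M k : ℤ) := by
    filter_upwards [hgap] with ω hω
    obtain ⟨J₀, hJ₀⟩ := eventually_atTop.1 hω
    set J := max J₀ 3 with hJ
    set C : ℝ := ∑ j ∈ Finset.range J, ((|X (j + 1) ω - X j ω| : ℤ) : ℝ) with hC
    filter_upwards [hkl (C / c), log_nat_tendsto.eventually_ge_atTop 1,
      hcast.eventually_ge_atTop 1] with k h1 h2 h3 j hj
    have hMr : c * (k / Real.log k) ≤ 2 * (M k : ℝ) := by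
      have h4 : c * k / (2 * Real.log k) ≤ ⌈c * k / (2 * Real.log k)⌉₊ := Nat.le_ceil _
      have h5 : c * (k / Real.log k) = 2 * (c * k / (2 * Real.log k)) := by field_simp
      simp only [hM]; push_cast; linarith
    have h6 : ((|X (j + 1) ω - X j ω| : ℤ) : ℝ) ≤ c * (k / Real.log k) := by
      rcases Nat.lt_or_ge j J with h7 | h7
      · have h8 : ((|X (j + 1) ω - X j ω| : ℤ) : ℝ) ≤ C :=
          Finset.single_le_sum (f := fun j => ((|X (j + 1) ω - X j ω| : ℤ) : ℝ))
            (fun i _ => by exact_mod_cast abs_nonneg _) (Finset.mem_range.2 h7)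
        rw [div_le_iff₀ hc0] at h1
        linarith
      · refine (hJ₀ j (by omega)).trans ?_
        have hj3 : (3 : ℝ) ≤ j := by exact_mod_cast (show 3 ≤ j by omega)
        have hjk : (j : ℝ) ≤ k := by exact_mod_cast hj.le
        have he : Real.exp 1 ≤ 3 := by
          have := Real.exp_one_lt_d9; linarith
        have h9 : Real.log k / k ≤ Real.log j / j :=
          Real.log_div_self_antitoneOn (Set.mem_setOf.2 (by linarith))
            (Set.mem_setOf.2 (by linarith)) hjk
        have hlj : 0 < Real.log j := Real.log_pos (by linarith)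
        have hlk : 0 < Real.log k := by linarith
        have h10 : (j : ℝ) / Real.log j ≤ k / Real.log k := by
          rw [div_le_div_iff₀ (by linarith) (by linarith)] at h9
          rw [div_le_div_iff₀ hlj hlk]
          linarith
        calc c * j / Real.log j = c * (j / Real.log j) := by ring
          _ ≤ c * (k / Real.log k) := by gcongr
    have h11 := h6.trans hMr
    exact_mod_cast h11
  have hE := engine μ hX h0 hodd (cth δ n₀) hθ l M (const_hprod hδ n₀) hMk hg
  filter_upwards [hE] with ω hω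
  filter_upwards [hω, hlM, hMk] with k h1 h2 h3
  refine ⟨h1.2 h2, fun t j ht hj hjk => h1.1 t j ?_ hj hjk⟩
  obtain ⟨m, hm⟩ : ∃ m, M k = m + 1 := ⟨M k - 1, by omega⟩
  rw [hm] at h2 ⊢
  simp only [Nat.add_sub_cancel]
  have h4 : (2 * l k + 1) * (m + 1) = 2 * (l k * m) + m + 2 * l k + 1 := by ring
  rw [h4] at h2
  omega

end Pool.Agent.Results.MP_aba96a_nt.RandomGaps
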